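import Pool.Agent.TH762.PT.Eng
import Pool.Agent.TH762.XC.Lev

/-!
# The search for the largest good list with exclusion in a level of the polynomial hierarchy
-/

set_option autoImplicit false

namespace Pool.Agent.TH762.PT

open Pool.Agent.NPC Pool.Agent.H579R2.Spt Pool.Agent.H251R5.PQ Pool.Agent.W901.AT
open Pool.Agent.TH684.EX Pool.Agent.W901.NU Pool.Agent.W901.PX Pool.Agent.TH762.XC
open Pool.Agent.W901.FH (pow_upolyc)
open Pool.Agent.W903.GP (SigmaP)

section

variable {k : ℕ} {α σ : Type} [TEnc α] [TEnc σ] [TDec α] [TDec σ]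

/-- **Iteration of a function of the level.** -/
theorem fIter {F : α × σ → σ} (hF : CFn (SigmaP (k + 1)) F) {n : α → ℕ} (hn : UPoly n)
    {s : α → σ} (hs : CFn (SigmaP (k + 1)) s) (q : Polynomial ℕ)
    (hq : ∀ a, ∀ i ≤ n a, sz ((fun t => F (a, t))^[i] (s a)) ≤ q.eval (sz a)) :
    CFn (SigmaP (k + 1)) (fun a => (fun t => F (a, t))^[n a] (s a)) := by
  refine ⟨⟨q, fun a => hq a _ le_rfl⟩, ?_⟩
  obtain ⟨qn, hqn⟩ := hn.sz_le
  have kn : ∀ a, n a ≤ qn.eval (sz a) := by
    intro a
    have h1 := hqn a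
    have h2 := length_lt_sz (List.replicate (n a) ())
    rw [List.length_replicate] at h2
    omega
  -- the first state
  have hA : CPr (SigmaP (k + 1)) (fun z : (α × σ) × List σ => ∃ b : α × σ,
      z.2[0]?.map (fun t => (z.1.1, t)) = some b ∧ s b.1 = b.2) := by
    refine sPart (P := fun b : α × σ => s b.1 = b.2)
      (f := fun z : (α × σ) × List σ => z.2[0]?.map (fun t => (z.1.1, t))) hs.2 ?_
    refine NPC.Poly.optMap (o := fun z : (α × σ) × List σ => z.2[0]?)
      (f := fun z t => (z.1.1, t)) (NPC.Poly.getElem? (NPC.Poly.snd NPC.Poly.id)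
        (NPC.Poly.const 0)) ?_
    exact NPC.Poly.pair (NPC.Poly.fst (NPC.Poly.fst (NPC.Poly.fst NPC.Poly.id)))
      (NPC.Poly.snd NPC.Poly.id)
  -- the last state
  have hB : CPr (SigmaP (k + 1)) (fun z : (α × σ) × List σ =>
      decide (bits (z.2[n z.1.1]?) = bits (some z.1.2)) = true) := by
    refine sPoly (NPC.Poly.decide_eq (bits_poly.comp ?_) (bits_poly.comp ?_))
    · exact NPC.Poly.getElem? (NPC.Poly.snd NPC.Poly.id)
        (hn.toPoly.comp (NPC.Poly.fst (NPC.Poly.fst NPC.Poly.id)))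
    · exact NPC.Poly.some (NPC.Poly.snd (NPC.Poly.fst NPC.Poly.id))
  -- the steps
  have hC : CPr (SigmaP (k + 1)) (fun z : (α × σ) × List σ =>
      ∀ p ∈ z.2.zip z.2.tail, F (z.1.1, p.1) = p.2) := by
    refine sAllMem (l := fun z : (α × σ) × List σ => z.2.zip z.2.tail)
      (P := fun z : ((α × σ) × List σ) × (σ × σ) => F (z.1.1.1, z.2.1) = z.2.2)
      (NPC.Poly.zip (NPC.Poly.snd NPC.Poly.id) (NPC.Poly.tail (NPC.Poly.snd NPC.Poly.id))) ?_
    exact sComp hF.2 (f := fun z : ((α × σ) × List σ) × (σ × σ) =>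
      ((z.1.1.1, z.2.1), z.2.2)) (NPC.Poly.pair (NPC.Poly.pair
        (NPC.Poly.fst (NPC.Poly.fst (NPC.Poly.fst NPC.Poly.id)))
        (NPC.Poly.fst (NPC.Poly.snd NPC.Poly.id))) (NPC.Poly.snd (NPC.Poly.snd NPC.Poly.id)))
  refine (sEx (sAnd hA (sAnd hB hC)) ((qn + 1) * (q + 1) + 1)).congr fun z => ?_
  obtain ⟨a, y⟩ := z
  simp only
  constructor
  · rintro ⟨L, _, ⟨b, hb, hb2⟩, h2, h3⟩
    obtain ⟨t, ht, rfl⟩ := Option.map_eq_some_iff.1 hb
    rw [decide_eq_true_eq] at h2
    have h2' := bits_injective h2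
    have key : ∀ i ≤ n a, L[i]? = some ((fun t => F (a, t))^[i] (s a)) := by
      intro i
      induction i with
      | zero => intro _; rw [ht, hb2]; rfl
      | succ i ih =>
        intro hi
        have h4 := ih (by omega)
        have hlen : n a < L.length := by
          by_contra hcon
          push Not at hcon
          rw [List.getElem?_eq_none hcon] at h2'
          exact absurd h2' (by simp)
        have hi1 : i + 1 < L.length := by omega
        have h5 : (L[i]'(by omega), L[i + 1]) ∈ L.zip L.tail := by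
          rw [List.mem_iff_getElem]
          refine ⟨i, by rw [List.length_zip, List.length_tail]; omega, ?_⟩
          rw [List.getElem_zip, List.getElem_tail]
        have h6 : F (a, L[i]'(by omega)) = L[i + 1] := h3 _ h5
        rw [List.getElem?_eq_getElem (by omega)] at h4
        have h7 := Option.some.inj h4
        rw [h7] at h6
        rw [List.getElem?_eq_getElem hi1, Function.iterate_succ_apply', ← h6]
    have h8 := key (n a) le_rfl
    rw [h8] at h2'
    exact Option.some.inj h2'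
  · intro hy
    refine ⟨(List.range (n a + 1)).map (fun i => (fun t => F (a, t))^[i] (s a)), ?_, ?_, ?_, ?_⟩
    · have h1 := sz_le_length_mul ((List.range (n a + 1)).map
        (fun i => (fun t => F (a, t))^[i] (s a))) (q.eval (sz a)) (by
          intro t ht
          obtain ⟨i, hi, rfl⟩ := List.mem_map.1 ht
          have := List.mem_range.1 hi
          exact hq a i (by omega))
      rw [List.length_map, List.length_range] at h1
      simp only [Polynomial.eval_add, Polynomial.eval_mul, Polynomial.eval_one]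
      have e : sz a ≤ sz (a, y) := by rw [sz_pair]; omega
      have h2 := (kn a).trans (eval_mono qn e)
      have h3 := eval_mono q e
      have h4 := Nat.mul_le_mul (Nat.succ_le_succ h2) (Nat.succ_le_succ h3)
      simp only [Nat.succ_eq_add_one] at h4
      omega
    · refine ⟨(a, s a), ?_, rfl⟩
      simp
    · rw [decide_eq_true_eq]
      congr 1
      rw [List.getElem?_map, List.getElem?_range (by omega), Option.map_some, hy]
    · intro p hp
      obtain ⟨i, hi, rfl⟩ := List.mem_iff_getElem.1 hp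
      rw [List.getElem_zip, List.getElem_tail]
      simp only [List.getElem_map, List.getElem_range]
      rw [Function.iterate_succ_apply']

end

/-! ### Correctness -/

/-- The largest good lists are kept. -/
theorem cds_correct {A : Set (List Bool)} {n m c D : ℕ} {X : List Bool → ℕ}
    {qz : List ℕ → List Bool} {N : ℕ}
    (hX : ∀ qs : List (List Bool), qs.length = m → (∀ y ∈ qs, y.length ≤ N) →
      Exclude Lthr A qs (X (bits (qs, c))))
    (hlen : ∀ u : List ℕ, u.length ≤ n → (∀ d ∈ u, d ≤ D) → (qz u).length ≤ N)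
    {good : List ℕ → Prop} (hT : Tree D n good) (h0 : good [])
    (hqz : ∀ u : List ℕ, u.length ≤ n → (∀ d ∈ u, d ≤ D) → (qz u ∈ A ↔
      ¬ ∃ σ : List ℕ, σ.length = u.length ∧ (∀ d ∈ σ, d ≤ D) ∧ good σ ∧ num D u ≤ num D σ)) :
    ∀ j ≤ n, ∀ t : List ℕ, t.length = j → (∀ d ∈ t, d ≤ D) → good t →
      (∀ σ : List ℕ, σ.length = j → (∀ d ∈ σ, d ≤ D) → good σ → num D σ ≤ num D t) →
      t ∈ (lev (fun V => X (bits (V.map qz, c))) m D)^[j] [[]] := by
  classical
  intro j
  induction j with
  | zero =>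
    intro _ t ht _ _ _
    rw [List.length_eq_zero_iff.1 ht]
    simp
  | succ j ih =>
    intro hj s hs1 hs2 hs3 hs4
    obtain ⟨t, ht1, ht2, ht3, ht4⟩ := hT.exists_max h0 (show j ≤ n by omega)
    have ht := ih (by omega) t ht1 ht2 ht3 ht4
    obtain ⟨d, hd, rfl⟩ := hT.max_take (by omega) ht1 ht2 ht3 ht4 hs1 hs2 hs3 hs4
    rw [Function.iterate_succ_apply']
    have hI := linv_iter (fun V => X (bits (V.map qz, c))) m D j
    set W := (lev (fun V => X (bits (V.map qz, c))) m D)^[j] [[]] with hW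
    have hmem : t ++ [d] ∈ chl D W := List.mem_flatMap.2 ⟨t, ht, List.mem_map.2
      ⟨d, List.mem_reverse.2 (List.mem_range.2 (by omega)), rfl⟩⟩
    have hcl := chl_len (D := D) hI.len
    have hcd := chl_dig hI.dig
    have hcp := chl_desc hI.desc
    unfold lev
    have hit : ∀ k : ℕ, ∀ V : List (List ℕ), (∀ w ∈ V, w.length = j + 1) →
        (∀ w ∈ V, ∀ d ∈ w, d ≤ D) → V.Pairwise (fun u v => num D v < num D u) →
        t ++ [d] ∈ V → t ++ [d] ∈ (prn (fun V => X (bits (V.map qz, c))) m)^[k] V := by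
      intro k
      induction k with
      | zero => intro V _ _ _ h; exact h
      | succ k ihk =>
        intro V v1 v2 v3 v4
        rw [Function.iterate_succ_apply]
        have hs := prn_sub (fun V => X (bits (V.map qz, c))) m V
        refine ihk _ (fun w hw => v1 w (hs.subset hw)) (fun w hw => v2 w (hs.subset hw))
          (v3.sublist hs) (prn_correct v3 v4 fun hlm => ?_)
        have hql : ((V.take m).map qz).length = m := by
          rw [List.length_map]
          exact hlm
        have h3 := hX ((V.take m).map qz) hql (by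
          intro y hy
          obtain ⟨u, hu, rfl⟩ := List.mem_map.1 hy
          have huV := List.mem_of_mem_take hu
          exact hlen u (by rw [v1 u huV]; exact hj) (v2 u huV))
        intro hcon
        apply h3
        rw [hql, vec_lthr, ← hcon]
        unfold answers
        rw [List.map_map]
        refine List.map_congr_left fun u hu => ?_
        have huV := List.mem_of_mem_take hu
        have h5 := hqz u (by rw [v1 u huV]; exact hj) (v2 u huV)
        change decide (qz u ∈ A) = _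
        refine decide_eq_decide.2 (h5.trans ?_)
        rw [v1 u huV]
        constructor
        · intro h6
          by_contra h7
          exact h6 ⟨t ++ [d], hs1, hs2, hs3, by omega⟩
        · rintro h6 ⟨σ, s1, s2, s3, s4⟩
          have := hs4 σ s1 s2 s3
          omega
    exact hit _ _ hcl hcd hcp hmem

/-! ### Computation in the level -/

section

variable {k : ℕ} {β : Type} [TEnc β] [TDec β]

theorem prn_cfn {f : β → List (List ℕ) → ℕ}
    (hf : CFn (SigmaP (k + 1)) (fun p : β × List (List ℕ) => f p.1 p.2))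
    {m : β → ℕ} (hm : Poly m) :
    CFn (SigmaP (k + 1)) (fun p : β × List (List ℕ) => prn (f p.1) (m p.1) p.2) := by
  have e1 : Poly (fun p : β × List (List ℕ) => p.1) := NPC.Poly.fst NPC.Poly.id
  have e2 : Poly (fun p : β × List (List ℕ) => p.2) := NPC.Poly.snd NPC.Poly.id
  have h1 : CFn (SigmaP (k + 1)) (fun p : β × List (List ℕ) => f p.1 (p.2.take (m p.1))) :=
    fCompPoly hf (f := fun p : β × List (List ℕ) => (p.1, p.2.take (m p.1)))
      (NPC.Poly.pair e1 (take_poly' e2 (hm.comp e1)))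
  have h2 : CFn (SigmaP (k + 1)) (fun p : β × List (List ℕ) => (p, f p.1 (p.2.take (m p.1)))) :=
    fPair (fPoly NPC.Poly.id) h1
  have h3 : Poly (fun z : (β × List (List ℕ)) × ℕ =>
      if m z.1.1 < z.1.2.length then z.1.2.take (min z.2 (m z.1.1)) ++
        z.1.2.drop (min z.2 (m z.1.1) + 1) else z.1.2) := by
    have f1 : Poly (fun z : (β × List (List ℕ)) × ℕ => z.1) := NPC.Poly.fst NPC.Poly.id
    have g1 := e1.comp f1
    have g2 := e2.comp f1
    have g3 := NPC.Poly.min (NPC.Poly.snd (NPC.Poly.id (α := (β × List (List ℕ)) × ℕ)))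
      (hm.comp g1)
    exact NPC.Poly.ite (NPC.Poly.decide_lt (hm.comp g1) (NPC.Poly.length g2))
      (NPC.Poly.append (take_poly' g2 g3) (drop_poly' g2 (NPC.Poly.add g3 (NPC.Poly.const 1)))) g2
  exact fComp (fPoly h3) h2

theorem lev_cfn {f : β → List (List ℕ) → ℕ}
    (hf : CFn (SigmaP (k + 1)) (fun p : β × List (List ℕ) => f p.1 p.2))
    {m D : β → ℕ} (hm : Poly m) (hD : UPoly D) :
    CFn (SigmaP (k + 1)) (fun p : β × List (List ℕ) => lev (f p.1) (m p.1) (D p.1) p.2) := by
  have e1 : Poly (fun p : β × List (List ℕ) => p.1) := NPC.Poly.fst NPC.Poly.id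
  have h1 : Poly (fun p : β × List (List ℕ) => chl (D p.1) p.2) :=
    chl_poly (hD.comp e1) (NPC.Poly.snd NPC.Poly.id)
  obtain ⟨q, hq⟩ := h1.sz_le
  have h2 : CFn (SigmaP (k + 1)) (fun z : (β × List (List ℕ)) × List (List ℕ) =>
      prn (f z.1.1) (m z.1.1) z.2) :=
    fCompPoly (prn_cfn hf hm) (f := fun z : (β × List (List ℕ)) × List (List ℕ) =>
      (z.1.1, z.2)) (NPC.Poly.pair (NPC.Poly.fst (NPC.Poly.fst NPC.Poly.id))
        (NPC.Poly.snd NPC.Poly.id))
  exact fIter (n := fun p : β × List (List ℕ) => (chl (D p.1) p.2).length) h2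
    (UPoly.length h1) (fPoly h1) q fun p i _ =>
      (sz_sublist (prn_iter_sub (f p.1) (m p.1) i _)).trans (hq p)

theorem cds_cfn {f : β → List (List ℕ) → ℕ}
    (hf : CFn (SigmaP (k + 1)) (fun p : β × List (List ℕ) => f p.1 p.2))
    {m D n : β → ℕ} (hm : UPoly m) (hD : UPoly D) (hn : UPoly n) :
    CFn (SigmaP (k + 1)) (fun a => cds (f a) (m a) (D a) (n a)) := by
  obtain ⟨qm, hqm⟩ := hm.sz_le
  obtain ⟨qD, hqD⟩ := hD.sz_le
  obtain ⟨qn, hqn⟩ := hn.sz_le
  have key : ∀ (u : β → ℕ) (q : Polynomial ℕ),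
      (∀ a, NPC.sz (List.replicate (u a) ()) ≤ q.eval (NPC.sz a)) →
      ∀ a, u a ≤ q.eval (NPC.sz a) := by
    intro u q hq a
    have h1 := hq a
    have h2 := length_lt_sz (List.replicate (u a) ())
    rw [List.length_replicate] at h2
    omega
  have kn := key n qn hqn
  have km := key m qm hqm
  have kD := key D qD hqD
  unfold cds
  exact fIter (F := fun p : β × List (List ℕ) => lev (f p.1) (m p.1) (D p.1) p.2)
    (s := fun _ => [[]]) (lev_cfn hf hm.toPoly hD) hn (fPoly (NPC.Poly.const _))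
    ((qm + 1) * (qn * (Polynomial.C 4 * qD + 2) + 2) + 1) (by
      intro a k hk
      have h1 := (linv_iter (f a) (m a) (D a) k).sz
      simp only [Polynomial.eval_add, Polynomial.eval_mul, Polynomial.eval_C, Polynomial.eval_one,
        Polynomial.eval_ofNat]
      have h2 : k * (4 * D a + 2) ≤ qn.eval (NPC.sz a) * (4 * qD.eval (NPC.sz a) + 2) :=
        Nat.mul_le_mul (hk.trans (kn a)) (by have := kD a; omega)
      refine h1.trans (Nat.add_le_add_right (Nat.mul_le_mul (Nat.succ_le_succ (km a)) ?_) 1)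
      omega)

end

/-- **The engine, for exclusion in a level.** -/
theorem engineC {k : ℕ} {α : Type} [TEnc α] [TDec α] {A : Set (List Bool)}
    (hA : FeasibleIn (SigmaP (k + 1)) (Exclude Lthr A))
    {D n : α → ℕ} (hD : UPoly D) (hn : UPoly n) {qz : α × List ℕ → List Bool} (hq : Poly qz)
    {tst : α × List ℕ → Bool} (ht : Poly tst) :
    ∃ R : α → Prop, CPr (SigmaP (k + 1)) R ∧
      ∀ (a : α) (good : List ℕ → Prop), Tree (D a) (n a) good →
        (∀ u : List ℕ, u.length ≤ n a → (∀ d ∈ u, d ≤ D a) → (qz (a, u) ∈ A ↔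
          ¬ ∃ σ : List ℕ, σ.length = u.length ∧ (∀ d ∈ σ, d ≤ D a) ∧ good σ ∧
            num (D a) u ≤ num (D a) σ)) →
        (∀ w : List ℕ, w.length = n a → (∀ d ∈ w, d ≤ D a) → (tst (a, w) = true ↔ good w)) →
        (R a ↔ ¬ good []) := by
  classical
  obtain ⟨X, b, hX, hex⟩ := hA
  have hXc := cfnS_of_computableIn hX
  obtain ⟨p1, hp1⟩ := hq.sz_le
  have hszU : UPoly (fun a : α => sz a) := UPoly.length (bits_poly (α := α))
  set N : α → ℕ := fun a => p1.eval (sz a + (n a * (4 * D a + 2) + 1) + 1) with hN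
  have hNU : UPoly N := ((hszU.add ((hn.mul (((UPoly.const 4).mul hD).add (UPoly.const 2))).add
    (UPoly.const 1))).add (UPoly.const 1)).eval p1
  set M : α → ℕ := fun a => (N a) ^ b + b with hM
  have hMU : UPoly M := (pow_upolyc hNU b).add (UPoly.const b)
  set F : (α × (ℕ × ℕ)) → List (List ℕ) → ℕ := fun z V =>
    X (bits (V.map (fun u => qz (z.1, u)), z.2.2)) with hF
  have e1 : Poly (fun z : α × (ℕ × ℕ) => z.1) := NPC.Poly.fst NPC.Poly.id
  have hFc : CFn (SigmaP (k + 1)) (fun p : (α × (ℕ × ℕ)) × List (List ℕ) => F p.1 p.2) := by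
    refine fCompPoly hXc (f := fun p : (α × (ℕ × ℕ)) × List (List ℕ) =>
      bits (p.2.map (fun u => qz (p.1.1, u)), p.1.2.2)) (bits_poly.comp (NPC.Poly.pair ?_ ?_))
    · refine NPC.Poly.map (l := fun p : (α × (ℕ × ℕ)) × List (List ℕ) => p.2)
        (F := fun p u => qz (p.1.1, u)) (NPC.Poly.snd NPC.Poly.id) ?_
      exact hq.comp (NPC.Poly.pair (NPC.Poly.fst (NPC.Poly.fst (NPC.Poly.fst NPC.Poly.id)))
        (NPC.Poly.snd NPC.Poly.id))
    · exact NPC.Poly.snd (NPC.Poly.snd (NPC.Poly.fst NPC.Poly.id))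
  have hcc : CFn (SigmaP (k + 1)) (fun z : α × (ℕ × ℕ) =>
      cds (F z) (min z.2.1 (M z.1)) (D z.1) (n z.1)) := by
    refine cds_cfn hFc ?_ (hD.comp e1) (hn.comp e1)
    exact UPoly.of_le (NPC.Poly.min (NPC.Poly.fst (NPC.Poly.snd NPC.Poly.id))
      (hMU.comp e1).toPoly) (hMU.comp e1) fun p => min_le_right _ _
  have hno : CPr (SigmaP (k + 1)) (fun z : (α × (ℕ × ℕ)) × List (List ℕ) =>
      (!z.2.any (fun w => tst (z.1.1, w))) = true) := by
    refine sPoly (NPC.Poly.not (NPC.Poly.any (l := fun z : (α × (ℕ × ℕ)) × List (List ℕ) => z.2)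
      (p := fun z w => tst (z.1.1, w)) (NPC.Poly.snd NPC.Poly.id) ?_))
    exact ht.comp (NPC.Poly.pair (NPC.Poly.fst (NPC.Poly.fst (NPC.Poly.fst NPC.Poly.id)))
      (NPC.Poly.snd NPC.Poly.id))
  have hin := sSubst hcc hno
  have hpr : Poly (fun a : α => (List.range (M a + 1)).flatMap fun m =>
      (List.range (M a + 1)).map fun c => (m, c)) := by
    refine NPC.Poly.flatMap (l := fun a => List.range (M a + 1)) (F := fun a m =>
      (List.range (M a + 1)).map fun c => (m, c)) (hMU.add (UPoly.const 1)).range ?_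
    refine NPC.Poly.map (l := fun p : α × ℕ => List.range (M p.1 + 1)) (F := fun p c => (p.2, c))
      (((hMU.add (UPoly.const 1)).range).comp (NPC.Poly.fst NPC.Poly.id)) ?_
    exact NPC.Poly.pair (NPC.Poly.snd (NPC.Poly.fst NPC.Poly.id)) (NPC.Poly.snd NPC.Poly.id)
  refine ⟨_, sAllMem hpr hin, fun a good hT hqz htst => ?_⟩
  have hmem : ∀ m c : ℕ, (m, c) ∈ ((List.range (M a + 1)).flatMap fun m =>
      (List.range (M a + 1)).map fun c => (m, c)) ↔ m ≤ M a ∧ c ≤ M a := by
    intro m c
    simp only [List.mem_flatMap, List.mem_map, List.mem_range, Prod.mk.injEq]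
    constructor
    · rintro ⟨m', hm', c', hc', rfl, rfl⟩
      omega
    · rintro ⟨h1, h2⟩
      exact ⟨m, by omega, c, by omega, rfl, rfl⟩
  constructor
  · intro hR h0
    obtain ⟨m, c, hm, hc, h1⟩ := hex (N a)
    change m ≤ M a at hm
    change c ≤ M a at hc
    have hlen : ∀ u : List ℕ, u.length ≤ n a → (∀ d ∈ u, d ≤ D a) →
        (qz (a, u)).length ≤ N a := by
      intro u hu hd
      have h2 := hp1 (a, u)
      have h3 := length_lt_sz (qz (a, u))
      have h4 := sz_digits u hd
      have h5 : u.length * (4 * D a + 2) ≤ n a * (4 * D a + 2) := Nat.mul_le_mul_right _ hu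
      have h6 : sz (a, u) ≤ sz a + (n a * (4 * D a + 2) + 1) + 1 := by
        rw [sz_pair]
        omega
      exact h3.le.trans (h2.trans (eval_mono p1 h6))
    obtain ⟨t, ht1, ht2, ht3, ht4⟩ := hT.exists_max h0 (le_refl (n a))
    have h2 := cds_correct (X := X) (c := c) (fun qs hqs hl => (h1 qs hqs hl).2) hlen hT h0 hqz
      (n a) le_rfl t ht1 ht2 ht3 ht4
    have h3 := hR (m, c) ((hmem m c).2 ⟨hm, hc⟩)
    simp only [Bool.not_eq_true', ← Bool.not_eq_true, List.any_eq_true] at h3
    refine h3 ⟨t, ?_, (htst t ht1 ht2).2 ht3⟩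
    rw [min_eq_left hm]
    exact h2
  · intro h0 z hz
    obtain ⟨m, c⟩ := z
    simp only [Bool.not_eq_true', ← Bool.not_eq_true, List.any_eq_true]
    rintro ⟨w, hw, hw1⟩
    have h1 := linv_iter (F (a, (m, c))) (min m (M a)) (D a) (n a)
    have h2 := (htst w (h1.len w hw) (h1.dig w hw)).1 hw1
    exact h0 (hT.take (v := w) (by simpa using h2))

end Pool.Agent.TH762.PT
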