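import Pool.Agent.TH762.PT.Thm
import Pool.Agent.TH762.PT.EngC

/-!
# The exclusion law for identity testing and nondeterminism
-/

set_option autoImplicit false

namespace Pool.Agent.TH762.PT

open Pool.Agent.NPC Pool.Agent.H531R2 Pool.Agent.H579R2.Spt Pool.Agent.H251R5.PQ
open Pool.Agent.TH684.EX Pool.Agent.W901.NU Pool.Agent.W901.PX Pool.Agent.TH762.XC
open Pool.Agent.W903.GP (SigmaP inNP_iff)

theorem sLang {k : ℕ} {α : Type} [TEnc α] [TDec α] {P : α → Prop} (h : CPr (SigmaP k) P) :
    SigmaP k (lang P) := by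
  have h1 : CPr (SigmaP k) (fun x : List Bool => ∃ b, unbits α x = some b ∧ P b) :=
    sPart h (f := fun x : List Bool => unbits α x) poly_unbits
  have h2 := sTo_raw h1
  have e : lang P = {x | ∃ b, unbits α x = some b ∧ P b} := by
    ext x
    rw [mem_lang_iff]
    rfl
  rw [e]
  exact h2

theorem sOfLang {k : ℕ} {α : Type} [TEnc α] {P : α → Prop} (h : SigmaP k (lang P)) :
    CPr (SigmaP k) P := ⟨_, h, fun _ => bits_mem_lang.symm⟩

theorem npf_eq : InNP = SigmaP 1 := funext fun _ => propext inNP_iff

/-- The question function. -/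
def qzf (f : List Bool → List Bool) (p : List Gate × List ℕ) : List Bool :=
  f (bits (cat (2 * p.1.length + 1) ((brs p.1.length p.2).map (rst p.1))))

theorem qzf_poly {f : List Bool → List Bool} (hfp : NPC.Poly f) : NPC.Poly (qzf f) := by
  have e1 : NPC.Poly (fun p : List Gate × List ℕ => p.1) := NPC.Poly.fst NPC.Poly.id
  refine hfp.comp (bits_poly.comp (cat_poly ?_ ?_))
  · exact NPC.Poly.add (NPC.Poly.mul (NPC.Poly.const 2) (NPC.Poly.length e1)) (NPC.Poly.const 1)
  · refine NPC.Poly.map (l := fun p : List Gate × List ℕ => brs p.1.length p.2)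
      (F := fun p τ => rst p.1 τ) (brs_poly (UPoly.length e1) (NPC.Poly.snd NPC.Poly.id)) ?_
    exact rst_poly (e1.comp (NPC.Poly.fst NPC.Poly.id)) (NPC.Poly.snd NPC.Poly.id)

/-- **From exclusion in a level to identity testing in the level.** -/
theorem lacit_level {k : ℕ} {A : Set (List Bool)} (hA : Reduces LACIT A)
    (hF : FeasibleIn (SigmaP (k + 1)) (Exclude Lthr A)) : SigmaP (k + 1) LACIT := by
  obtain ⟨f, hf, hfA⟩ := hA
  have hfp := PIso.poly_iff.2 hf
  have hlen : UPoly (fun C : List Gate => C.length) := UPoly.length NPC.Poly.id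
  obtain ⟨R, hR, hR2⟩ := engineC hF hlen hlen (qzf_poly hfp) tstw_poly
  refine sLang ?_
  have h1 : CPr (SigmaP (k + 1)) (fun C : List Gate => (wfB C && lowB C) = true ∧ R C) :=
    sAnd (sPoly (NPC.Poly.and (poly_wfB NPC.Poly.id) lowB_poly)) hR
  refine h1.congr fun C => ?_
  rw [Bool.and_eq_true, wfB_iff, lowB_iff, and_assoc]
  refine and_congr_right fun hwf => and_congr_right fun hlow => ?_
  have hT : Tree C.length C.length (good C) := tree_good hlow C.length
  rw [hR2 C (good C) hT (by
      intro u hu hd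
      rw [← hT.brs_iff hu hd, ← question hwf hlow hd]
      exact (hfA _).symm) (by
      intro w hw hd
      exact tstw_iff hwf hlow hw hd), good_nil_iff, not_not]

/-- The nonzero circuits have short witnesses. -/
theorem lacit_coNP : InNP LACITᶜ := by
  have h1 : CPr (SigmaP 1) (fun C : List Gate => (!(wfB C && lowB C)) = true ∨
      ∃ w : List ℕ, sz w ≤ (Polynomial.X * (Polynomial.C 4 * Polynomial.X + 2) + 1 :
        Polynomial ℕ).eval (sz C) ∧ (decide (w.length = C.length) &&
          (w.all (fun d => decide (d ≤ C.length)) && tstw C w)) = true) := by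
    refine sOr (sPoly (NPC.Poly.not (NPC.Poly.and (poly_wfB NPC.Poly.id) lowB_poly))) ?_
    refine sEx (P := fun z : List Gate × List ℕ => (decide (z.2.length = z.1.length) &&
          (z.2.all (fun d => decide (d ≤ z.1.length)) && tstw z.1 z.2)) = true) (sPoly ?_) _
    have e1 : NPC.Poly (fun z : List Gate × List ℕ => z.1) := NPC.Poly.fst NPC.Poly.id
    have e2 : NPC.Poly (fun z : List Gate × List ℕ => z.2) := NPC.Poly.snd NPC.Poly.id
    refine NPC.Poly.and (NPC.Poly.decide_eq (NPC.Poly.length e2) (NPC.Poly.length e1))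
      (NPC.Poly.and ?_ tstw_poly)
    exact NPC.Poly.all (l := fun z : List Gate × List ℕ => z.2)
      (p := fun z d => decide (d ≤ z.1.length)) e2
      (NPC.Poly.decide_le (NPC.Poly.snd NPC.Poly.id)
        (NPC.Poly.length (e1.comp (NPC.Poly.fst NPC.Poly.id))))
  have h2 : CPr (SigmaP 1) (fun C : List Gate => ¬ (WF C ∧ Low C ∧ cpoly C = 0)) := by
    refine h1.congr fun C => ?_
    rw [Bool.not_eq_true', ← Bool.not_eq_true, Bool.and_eq_true, wfB_iff, lowB_iff]
    by_cases hwf : WF C
    · by_cases hlow : Low C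
      · have hT : Tree C.length C.length (good C) := tree_good hlow C.length
        simp only [hwf, hlow, and_self, not_true_eq_false, false_or, true_and]
        rw [← Ne, ← good_nil_iff]
        constructor
        · rintro ⟨w, _, hw⟩
          simp only [Bool.and_eq_true, decide_eq_true_eq, List.all_eq_true] at hw
          obtain ⟨w1, w2, w3⟩ := hw
          have h3 := (tstw_iff hwf hlow w1 w2).1 w3
          exact hT.take (v := w) (by simpa using h3)
        · intro h0
          obtain ⟨w, w1, w2, w3⟩ := hT.extend h0 (by simp) C.length (by simp)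
          rw [List.nil_append] at w3
          refine ⟨w, ?_, ?_⟩
          · have h4 := sz_digits w w2
            have h5 := length_lt_sz C
            simp only [Polynomial.eval_add, Polynomial.eval_mul, Polynomial.eval_X,
              Polynomial.eval_C, Polynomial.eval_one, Polynomial.eval_ofNat]
            refine h4.trans (Nat.add_le_add_right (Nat.mul_le_mul (by omega) (by omega)) 1)
          · simp only [Bool.and_eq_true, decide_eq_true_eq, List.all_eq_true]
            exact ⟨w1, w2, (tstw_iff hwf hlow w1 w2).2 w3⟩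
      · simp [hlow]
    · simp [hwf]
  rw [npf_eq]
  have h3 : CPr (SigmaP 1) (fun x : List Bool => (!(unbits (List Gate) x).isSome) = true ∨
      ∃ b, unbits (List Gate) x = some b ∧ ¬ (WF b ∧ Low b ∧ cpoly b = 0)) :=
    sOr (sPoly (NPC.Poly.not (NPC.Poly.isSome poly_unbits)))
      (sPart h2 (f := fun x : List Bool => unbits (List Gate) x) poly_unbits)
  have h4 := sTo_raw h3
  have e : LACITᶜ = {x | (!(unbits (List Gate) x).isSome) = true ∨
      ∃ b, unbits (List Gate) x = some b ∧ ¬ (WF b ∧ Low b ∧ cpoly b = 0)} := by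
    ext x
    rw [Set.mem_compl_iff, LACIT, mem_lang_iff, Set.mem_setOf_eq]
    cases hx : unbits (List Gate) x with
    | none => simp
    | some C => simp
  rw [e]
  exact h4

open Classical in
/-- Membership of the first question. -/
noncomputable def Xl (z : List Bool) : ℕ := if (dp z).1.getD 0 [] ∈ LACIT then 0 else 1

theorem feasibleIn_lacit (h : InNP LACIT) : FeasibleIn InNP (ExcludeCount LACIT) := by
  classical
  refine ⟨Xl, 1, ⟨⟨Polynomial.C 20, fun x => ?_⟩, ?_⟩, fun n => ⟨1, 0, by omega, by omega,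
    fun qs hqs _ => ?_⟩⟩
  · rw [Polynomial.eval_C, bits_length]
    have : Xl x ≤ 1 := by
      unfold Xl
      split_ifs <;> omega
    refine (sz_nat_le _).trans ?_
    have h2 := NPC.Poly.size_le_self (Xl x)
    omega
  · rw [npf_eq] at h ⊢
    have hc : SigmaP 1 LACITᶜ := inNP_iff.1 lacit_coNP
    have e0 : NPC.Poly (fun z : List Bool => (dp (unpair z).1).1.getD 0 []) :=
      NPC.Poly.getD (NPC.Poly.fst (dp_poly.comp (NPC.Poly.fst poly_unpair))) (NPC.Poly.const 0)
        (NPC.Poly.const [])
    have p0 : NPC.Poly (fun z : List Bool => decide ((unpair z).2 = bits (0 : ℕ))) :=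
      NPC.Poly.decide_eq (NPC.Poly.snd poly_unpair) (NPC.Poly.const _)
    have p1 : NPC.Poly (fun z : List Bool => decide ((unpair z).2 = bits (1 : ℕ))) :=
      NPC.Poly.decide_eq (NPC.Poly.snd poly_unpair) (NPC.Poly.const _)
    have p2 : NPC.Poly (fun z : List Bool => decide (z = pairBits (unpair z).1 (unpair z).2)) :=
      NPC.Poly.decide_eq NPC.Poly.id (H622R2.poly_pairBits (NPC.Poly.fst poly_unpair)
        (NPC.Poly.snd poly_unpair))
    have h1 : CPr (SigmaP 1) (fun z : List Bool =>
        decide (z = pairBits (unpair z).1 (unpair z).2) = true ∧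
        (((dp (unpair z).1).1.getD 0 [] ∈ LACIT ∧ decide ((unpair z).2 = bits (0 : ℕ)) = true) ∨
          ((dp (unpair z).1).1.getD 0 [] ∈ LACITᶜ ∧
            decide ((unpair z).2 = bits (1 : ℕ)) = true))) :=
      sAnd (sPoly p2) (sOr (sAnd (sComp (P := fun x => x ∈ LACIT) (sOf_raw h) e0) (sPoly p0))
        (sAnd (sComp (P := fun x => x ∈ LACITᶜ) (sOf_raw hc) e0) (sPoly p1)))
    have h2 := sTo_raw h1
    have e : {z | ∃ x, z = pairBits x (bits (Xl x))} = {z : List Bool |
        decide (z = pairBits (unpair z).1 (unpair z).2) = true ∧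
        (((dp (unpair z).1).1.getD 0 [] ∈ LACIT ∧ decide ((unpair z).2 = bits (0 : ℕ)) = true) ∨
          ((dp (unpair z).1).1.getD 0 [] ∈ LACITᶜ ∧
            decide ((unpair z).2 = bits (1 : ℕ)) = true))} := by
      ext z
      simp only [Set.mem_setOf_eq, decide_eq_true_eq, Set.mem_compl_iff]
      constructor
      · rintro ⟨x, rfl⟩
        rw [unpair_pairBits]
        refine ⟨rfl, ?_⟩
        by_cases hx : (dp x).1.getD 0 [] ∈ LACIT
        · exact Or.inl ⟨hx, by simp only [Xl, if_pos hx]⟩
        · exact Or.inr ⟨hx, by simp only [Xl, if_neg hx]⟩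
      · rintro ⟨h1, h2⟩
        refine ⟨(unpair z).1, ?_⟩
        rcases h2 with ⟨h3, h4⟩ | ⟨h3, h4⟩
        · have : Xl (unpair z).1 = 0 := by simp only [Xl, if_pos h3]
          rw [this, ← h4]
          exact h1
        · have : Xl (unpair z).1 = 1 := by simp only [Xl, if_neg h3]
          rw [this, ← h4]
          exact h1
    rw [e]
    exact h2
  · obtain ⟨y, rfl⟩ := List.length_eq_one_iff.1 hqs
    simp only [Xl, dp_bits, List.getD_cons_zero]
    by_cases h : y ∈ LACIT
    · rw [if_pos h]
      refine ⟨by omega, by simp, ?_⟩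
      simp [answers, h]
    · rw [if_neg h]
      refine ⟨by omega, by simp, ?_⟩
      simp [answers, h]

/-- **The exclusion law for identity testing in `NP`.** -/
theorem lacit_np_law : List.TFAE
    [InNP LACIT,
      ∃ A : Set (List Bool), Reduces LACIT A ∧ FeasibleIn InNP (ExcludeSorted A),
      ∃ A : Set (List Bool), Reduces LACIT A ∧ FeasibleIn InNP (ExcludeCount A)] := by
  have hrefl : Reduces LACIT LACIT := ⟨fun x => x, polyTime_id, fun _ => Iff.rfl⟩
  tfae_have 1 → 3 := fun h => ⟨LACIT, hrefl, feasibleIn_lacit h⟩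
  tfae_have 3 → 2 := fun ⟨A, hA, h⟩ => ⟨A, hA, h.mono sorted_of_count⟩
  tfae_have 2 → 1 := fun ⟨A, hA, h⟩ => by
    have h1 := h.mono exclude_of_sorted
    rw [npf_eq] at h1 ⊢
    exact lacit_level (k := 0) hA h1
  tfae_finish

end Pool.Agent.TH762.PT
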